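import Pool.Agent.W973.SRR.Defs

/-! Project SRR, part EV. -/

set_option autoImplicit false

namespace Pool.Agent.W208.SRR

open Pool.Agent.W973.SRR Pool.Agent.NPC

theorem mtV (ψ : CNF) (o : Option ℕ) (c : ℕ) : mt ψ o (aV c) =
    (if o = some (vv ψ (3 * c)) then aP (3 * c)
    else if o = some (vv ψ (3 * c + 1)) then aP (3 * c + 1)
    else if o = some (vv ψ (3 * c + 2)) then aP (3 * c + 2)
    else aW c) := by
  have h1 : aV c % 8 = 0 := by unfold aV; omega
  have h2 : aV c / 8 = c := by unfold aV; omega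
  have h3 : aV c + 1 = aW c := by unfold aV aW; omega
  unfold Pool.Agent.W973.SRR.mt
  rw [if_pos h1, h2, h3]

theorem mtW (ψ : CNF) (o : Option ℕ) (c : ℕ) : mt ψ o (aW c) =
    (if o = some (vv ψ (3 * c)) then aQ (3 * c + 2)
    else if o = some (vv ψ (3 * c + 1)) then aQ (3 * c)
    else if o = some (vv ψ (3 * c + 2)) then aQ (3 * c + 1)
    else aV c) := by
  have h0 : ¬ aW c % 8 = 0 := by unfold aW; omega
  have h1 : aW c % 8 = 1 := by unfold aW; omega
  have h2 : aW c / 8 = c := by unfold aW; omega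
  have h3 : aW c - 1 = aV c := by unfold aV aW; omega
  unfold Pool.Agent.W973.SRR.mt
  rw [if_neg h0, if_pos h1, h2, h3]

theorem mtP (ψ : CNF) (o : Option ℕ) (i : ℕ) : mt ψ o (aP i) =
    (if o = some (vv ψ i) then aV (i / 3)
      else if o = some (vv ψ (nr i)) then cnP ψ i else aQ i) := by
  have h0 : ¬ aP i % 8 = 0 := by unfold aP; omega
  have h1 : ¬ aP i % 8 = 1 := by unfold aP; omega
  have h2 : aP i % 2 = 0 := by unfold aP; omega
  have h3 : aP i / 8 = i / 3 := by unfold aP; omega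
  have h6 : aP i % 8 = 2 * (i % 3) + 2 := by unfold aP; omega
  have h4 : 3 * (i / 3) + (aP i % 8) / 2 - 1 = i := by rw [h6]; omega
  have h5 : aP i + 1 = aQ i := by unfold aP aQ; omega
  unfold Pool.Agent.W973.SRR.mt
  rw [if_neg h0, if_neg h1, if_pos h2, h3, h4, h5]

theorem mtQ (ψ : CNF) (o : Option ℕ) (i : ℕ) : mt ψ o (aQ i) =
    (if o = some (vv ψ i) then cnQ ψ i
      else if o = some (vv ψ (nr i)) then aW (i / 3) else aP i) := by
  have h0 : ¬ aQ i % 8 = 0 := by unfold aQ; omega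
  have h1 : ¬ aQ i % 8 = 1 := by unfold aQ; omega
  have h2 : ¬ aQ i % 2 = 0 := by unfold aQ; omega
  have h3 : aQ i / 8 = i / 3 := by unfold aQ; omega
  have h6 : aQ i % 8 = 2 * (i % 3) + 3 := by unfold aQ; omega
  have h4 : 3 * (i / 3) + (aQ i % 8) / 2 - 1 = i := by rw [h6]; omega
  have h5 : aQ i - 1 = aP i := by unfold aP aQ; omega
  unfold Pool.Agent.W973.SRR.mt
  rw [if_neg h0, if_neg h1, if_neg h2, h3, h4, h5]

theorem ev (h1 : S_BAS) : S_EV := by
  intro ψ hd
  obtain ⟨hN, -, hB⟩ := h1 ψ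
  refine ⟨?_, ?_, fun i _ o => ⟨mtP ψ o i, mtQ ψ o i⟩⟩
  · intro i hi
    obtain ⟨-, -, e1, e2, e3⟩ := hB hd i hi
    obtain ⟨c, k, hk, rfl⟩ : ∃ c k, k < 3 ∧ i = 3 * c + k := ⟨i / 3, i % 3, by omega, by omega⟩
    have hc : (3 * c + k) / 3 = c := by omega
    rw [hc, mtV, mtW]
    interval_cases k
    · have hp : pr (3 * c + 0) = 3 * c + 2 := by unfold pr; omega
      rw [hp]
      exact ⟨by simp, by simp⟩
    · have hp : pr (3 * c + 1) = 3 * c := by unfold pr; omega
      rw [hp] at e2 ⊢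
      have e4 : ¬ (some (vv ψ (3 * c + 1)) = some (vv ψ (3 * c))) := by
        intro h; exact e2 (Option.some.inj h).symm
      rw [if_neg e4, if_pos rfl, if_neg e4, if_pos rfl]
      exact ⟨rfl, rfl⟩
    · have hp : pr (3 * c + 2) = 3 * c + 1 := by unfold pr; omega
      have hn : nr (3 * c + 2) = 3 * c := by unfold nr; omega
      rw [hn] at e1 e3
      rw [hp] at e2 e3 ⊢
      have e4 : ¬ (some (vv ψ (3 * c + 2)) = some (vv ψ (3 * c))) := by
        intro h; exact e1 (Option.some.inj h).symm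
      have e5 : ¬ (some (vv ψ (3 * c + 2)) = some (vv ψ (3 * c + 1))) := by
        intro h; exact e2 (Option.some.inj h).symm
      rw [if_neg e4, if_neg e5, if_pos rfl, if_neg e4, if_neg e5, if_pos rfl]
      exact ⟨rfl, rfl⟩
  · intro c hc o ho
    have f0 := ho (3 * c) (by omega) (by omega)
    have f1 := ho (3 * c + 1) (by omega) (by omega)
    have f2 := ho (3 * c + 2) (by omega) (by omega)
    rw [mtV, mtW, if_neg f0, if_neg f1, if_neg f2, if_neg f0, if_neg f1, if_neg f2]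
    exact ⟨rfl, rfl⟩

end Pool.Agent.W208.SRR
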